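import Mathlib

set_option autoImplicit false

/-! Bounded reduced bandwidth of the `p`-subdivision of `K_n` forces `p` to be linear in `n`. -/

namespace Pool.Agent.Results.MP_ec82ff_co.LinearSubdivision

open SimpleGraph

/-- A trigraph: every pair of distinct vertices is a black edge, a red edge or a non-edge. -/
structure Trigraph (V : Type) where
  /-- the black edges -/
  black : SimpleGraph V
  /-- the red edges -/
  red : SimpleGraph V
  /-- no pair is both black and red -/
  disj : ∀ x y, ¬ (black.Adj x y ∧ red.Adj x y)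

/-- A graph, as a trigraph without red edges. -/
def ofGraph {V : Type} (G : SimpleGraph V) : Trigraph V where
  black := G
  red := ⊥
  disj := by simp

/-- `xy` is a non-edge of the trigraph `T`. -/
def Trigraph.NonEdge {V : Type} (T : Trigraph V) (x y : V) : Prop :=
  ¬ T.black.Adj x y ∧ ¬ T.red.Adj x y

/-- `T'` arises from `T` by contracting two distinct vertices `u`, `v` into one vertex: `f` is the
map to the vertices of `T'`, it identifies `u` and `v` and nothing else; the pairs not involving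
`u`, `v` are unchanged; for every other vertex `x` the pair formed by the new vertex and `x` is
black if `ux` and `vx` are black, a non-edge if `ux` and `vx` are non-edges, and red
otherwise. -/
def IsContraction {V W : Type} (T : Trigraph V) (T' : Trigraph W) : Prop :=
  ∃ (f : V → W) (u v : V), u ≠ v ∧ Function.Surjective f ∧
    (∀ x y, f x = f y ↔ (x = y ∨ (x = u ∧ y = v) ∨ (x = v ∧ y = u))) ∧
    (∀ x y, x ≠ u → x ≠ v → y ≠ u → y ≠ v →
      (T'.black.Adj (f x) (f y) ↔ T.black.Adj x y) ∧ (T'.red.Adj (f x) (f y) ↔ T.red.Adj x y)) ∧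
    (∀ x, x ≠ u → x ≠ v →
      (T'.black.Adj (f u) (f x) ↔ T.black.Adj u x ∧ T.black.Adj v x) ∧
      (T'.red.Adj (f u) (f x) ↔ ¬ (T.black.Adj u x ∧ T.black.Adj v x) ∧
        ¬ (T.NonEdge u x ∧ T.NonEdge v x)))

/-- The bandwidth of `H` is at most `c`. -/
def BandwidthLE {V : Type} (H : SimpleGraph V) (c : ℕ) : Prop :=
  ∃ (N : ℕ) (σ : V ≃ Fin N), ∀ u v, H.Adj u v → |((σ u).1 : ℤ) - (σ v).1| ≤ c

/-- The trigraph can be contracted to a single vertex so that all trigraphs on the way (itself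
included) have red graphs of bandwidth at most `c`. -/
inductive Contracts (c : ℕ) : (V : Type) → Trigraph V → Prop
  | single (V : Type) (T : Trigraph V) : Nat.card V = 1 → BandwidthLE T.red c → Contracts c V T
  | step (V W : Type) (T : Trigraph V) (T' : Trigraph W) : BandwidthLE T.red c →
      IsContraction T T' → Contracts c W T' → Contracts c V T

/-- The reduced bandwidth of `G` is at most `c`. -/
def ReducedBandwidthLE {V : Type} (G : SimpleGraph V) (c : ℕ) : Prop := Contracts c V (ofGraph G)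

/-- The vertices of `K_n^{(p)}`: the branch vertices, and `p` vertices for every pair `i < j`. -/
abbrev KV (n p : ℕ) : Type := Fin n ⊕ ({e : Fin n × Fin n // e.1 < e.2} × Fin p)

/-- The edges of `K_n^{(p)}` (in one direction). -/
def subRel (n p : ℕ) : KV n p → KV n p → Prop
  | .inl i, .inr (e, k) => (i = e.1.1 ∧ k.val = 0) ∨ (i = e.1.2 ∧ k.val + 1 = p)
  | .inr (e, k), .inr (e', k') => e = e' ∧ k.val + 1 = k'.val
  | _, _ => False

/-- The `p`-subdivision of `K_n`. -/
def Ksub (n p : ℕ) : SimpleGraph (KV n p) := SimpleGraph.fromRel (subRel n p)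

/-! ### Contractions and partitions -/

section rep
variable {X V W : Type}

/-- all pairs of preimages are adjacent -/
def Comp (G : SimpleGraph X) (g : X → V) (a b : V) : Prop :=
  ∀ x y, g x = a → g y = b → G.Adj x y

/-- all pairs of preimages are non-adjacent -/
def Anti (G : SimpleGraph X) (g : X → V) (a b : V) : Prop :=
  ∀ x y, g x = a → g y = b → ¬ G.Adj x y

/-- The trigraph `T` is the quotient of `G` by the map `g`. -/
def Rep (G : SimpleGraph X) (T : Trigraph V) (g : X → V) : Prop :=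
  Function.Surjective g ∧ ∀ a b, a ≠ b →
    (T.black.Adj a b ↔ Comp G g a b) ∧ (T.red.Adj a b ↔ ¬ Comp G g a b ∧ ¬ Anti G g a b)

theorem Comp.symm {G : SimpleGraph X} {g : X → V} {a b : V} (h : Comp G g a b) :
    Comp G g b a := fun x y hx hy => (h y x hy hx).symm

theorem Anti.symm {G : SimpleGraph X} {g : X → V} {a b : V} (h : Anti G g a b) :
    Anti G g b a := fun x y hx hy hadj => h y x hy hx hadj.symm

theorem not_comp_anti {G : SimpleGraph X} {g : X → V} (hg : Function.Surjective g) {a b : V}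
    (h1 : Comp G g a b) (h2 : Anti G g a b) : False := by
  obtain ⟨x, hx⟩ := hg a
  obtain ⟨y, hy⟩ := hg b
  exact h2 x y hx hy (h1 x y hx hy)

theorem rep_nonEdge {G : SimpleGraph X} {T : Trigraph V} {g : X → V} (h : Rep G T g) {a b : V}
    (hab : a ≠ b) : T.NonEdge a b ↔ Anti G g a b := by
  unfold Trigraph.NonEdge
  rw [(h.2 a b hab).1, (h.2 a b hab).2]
  constructor
  · rintro ⟨h1, h2⟩
    by_contra h3
    exact h2 ⟨h1, h3⟩
  · intro h1
    exact ⟨fun h2 => not_comp_anti h.1 h2 h1, fun h2 => h2.2 h1⟩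

theorem rep_ofGraph (G : SimpleGraph X) : Rep G (ofGraph G) id := by
  refine ⟨Function.surjective_id, ?_⟩
  intro a b _
  have h1 : Comp G id a b ↔ G.Adj a b :=
    ⟨fun h => h a b rfl rfl, fun h x y hx hy => by simp only [id] at hx hy; rw [hx, hy]; exact h⟩
  have h2 : Anti G id a b ↔ ¬ G.Adj a b :=
    ⟨fun h => h a b rfl rfl, fun h x y hx hy => by simp only [id] at hx hy; rw [hx, hy]; exact h⟩
  rw [h1, h2]
  simp [ofGraph]

theorem rep_step {G : SimpleGraph X} {T : Trigraph V} {T' : Trigraph W} {g : X → V}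
    (h : Rep G T g) {f : V → W} {u v : V} (huv : u ≠ v) (hf : Function.Surjective f)
    (h1 : ∀ x y, f x = f y ↔ (x = y ∨ (x = u ∧ y = v) ∨ (x = v ∧ y = u)))
    (h2 : ∀ x y, x ≠ u → x ≠ v → y ≠ u → y ≠ v →
      (T'.black.Adj (f x) (f y) ↔ T.black.Adj x y) ∧ (T'.red.Adj (f x) (f y) ↔ T.red.Adj x y))
    (h3 : ∀ x, x ≠ u → x ≠ v →
      (T'.black.Adj (f u) (f x) ↔ T.black.Adj u x ∧ T.black.Adj v x) ∧
      (T'.red.Adj (f u) (f x) ↔ ¬ (T.black.Adj u x ∧ T.black.Adj v x) ∧
        ¬ (T.NonEdge u x ∧ T.NonEdge v x))) : Rep G T' (f ∘ g) := by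
  have hfib : ∀ x, x ≠ u → x ≠ v → ∀ y, f y = f x → y = x := by
    intro x hxu hxv y hy
    rcases (h1 y x).1 hy with h | ⟨-, h⟩ | ⟨-, h⟩
    · exact h
    · exact absurd h hxv
    · exact absurd h hxu
  have hfibu : ∀ y, f y = f u → y = u ∨ y = v := by
    intro y hy
    rcases (h1 y u).1 hy with h | ⟨-, h⟩ | ⟨h, -⟩
    · exact Or.inl h
    · exact absurd h huv
    · exact Or.inr h
  have hfuv : f v = f u := (h1 v u).2 (Or.inr (Or.inr ⟨rfl, rfl⟩))
  -- pairs without the new vertex
  have c1 : ∀ x y, x ≠ u → x ≠ v → y ≠ u → y ≠ v → x ≠ y →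
      (T'.black.Adj (f x) (f y) ↔ Comp G (f ∘ g) (f x) (f y)) ∧
      (T'.red.Adj (f x) (f y) ↔ ¬ Comp G (f ∘ g) (f x) (f y) ∧ ¬ Anti G (f ∘ g) (f x) (f y)) := by
    intro x y hxu hxv hyu hyv hxy
    have e1 : Comp G (f ∘ g) (f x) (f y) ↔ Comp G g x y := by
      constructor
      · intro hc a b ha hb
        exact hc a b (by simp [ha]) (by simp [hb])
      · intro hc a b ha hb
        exact hc a b (hfib x hxu hxv _ ha) (hfib y hyu hyv _ hb)
    have e2 : Anti G (f ∘ g) (f x) (f y) ↔ Anti G g x y := by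
      constructor
      · intro hc a b ha hb
        exact hc a b (by simp [ha]) (by simp [hb])
      · intro hc a b ha hb
        exact hc a b (hfib x hxu hxv _ ha) (hfib y hyu hyv _ hb)
    rw [e1, e2, (h2 x y hxu hxv hyu hyv).1, (h2 x y hxu hxv hyu hyv).2]
    exact h.2 x y hxy
  -- pairs with the new vertex
  have c2 : ∀ x, x ≠ u → x ≠ v →
      (T'.black.Adj (f u) (f x) ↔ Comp G (f ∘ g) (f u) (f x)) ∧
      (T'.red.Adj (f u) (f x) ↔ ¬ Comp G (f ∘ g) (f u) (f x) ∧ ¬ Anti G (f ∘ g) (f u) (f x)) := by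
    intro x hxu hxv
    have e1 : Comp G (f ∘ g) (f u) (f x) ↔ Comp G g u x ∧ Comp G g v x := by
      constructor
      · intro hc
        exact ⟨fun a b ha hb => hc a b (by simp [ha]) (by simp [hb]),
          fun a b ha hb => hc a b (by simp [ha, hfuv]) (by simp [hb])⟩
      · rintro ⟨hc1, hc2⟩ a b ha hb
        have hb' := hfib x hxu hxv _ hb
        rcases hfibu _ ha with h | h
        · exact hc1 a b h hb'
        · exact hc2 a b h hb'
    have e2 : Anti G (f ∘ g) (f u) (f x) ↔ Anti G g u x ∧ Anti G g v x := by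
      constructor
      · intro hc
        exact ⟨fun a b ha hb => hc a b (by simp [ha]) (by simp [hb]),
          fun a b ha hb => hc a b (by simp [ha, hfuv]) (by simp [hb])⟩
      · rintro ⟨hc1, hc2⟩ a b ha hb
        have hb' := hfib x hxu hxv _ hb
        rcases hfibu _ ha with h | h
        · exact hc1 a b h hb'
        · exact hc2 a b h hb'
    rw [e1, e2, (h3 x hxu hxv).1, (h3 x hxu hxv).2, rep_nonEdge h (Ne.symm hxu),
      rep_nonEdge h (Ne.symm hxv), (h.2 u x (Ne.symm hxu)).1, (h.2 v x (Ne.symm hxv)).1]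
    exact ⟨Iff.rfl, Iff.rfl⟩
  refine ⟨hf.comp h.1, ?_⟩
  intro a b hab
  obtain ⟨x, rfl⟩ := hf a
  obtain ⟨y, rfl⟩ := hf b
  have hxy : x ≠ y := fun h => hab (by rw [h])
  have hx' : (x ≠ u ∧ x ≠ v) ∨ f x = f u := by
    by_cases h4 : x = u
    · right; rw [h4]
    · by_cases h5 : x = v
      · right; rw [h5]; exact hfuv
      · exact Or.inl ⟨h4, h5⟩
  have hy' : (y ≠ u ∧ y ≠ v) ∨ f y = f u := by
    by_cases h4 : y = u
    · right; rw [h4]
    · by_cases h5 : y = v
      · right; rw [h5]; exact hfuv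
      · exact Or.inl ⟨h4, h5⟩
  rcases hx' with hx' | hx'
  · rcases hy' with hy' | hy'
    · exact c1 x y hx'.1 hx'.2 hy'.1 hy'.2 hxy
    · rw [hy']
      obtain ⟨e1, e2⟩ := c2 x hx'.1 hx'.2
      rw [SimpleGraph.adj_comm T'.black, SimpleGraph.adj_comm T'.red, e1, e2]
      have e3 : Comp G (f ∘ g) (f u) (f x) ↔ Comp G (f ∘ g) (f x) (f u) :=
        ⟨Comp.symm, Comp.symm⟩
      have e4 : Anti G (f ∘ g) (f u) (f x) ↔ Anti G (f ∘ g) (f x) (f u) :=
        ⟨Anti.symm, Anti.symm⟩
      rw [e3, e4]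
      exact ⟨Iff.rfl, Iff.rfl⟩
  · rcases hy' with hy' | hy'
    · rw [hx']
      exact c2 y hy'.1 hy'.2
    · exact absurd (hx'.trans hy'.symm) hab

end rep

/-! ### The subdivided complete graph -/

section sub
variable {n p : ℕ}

theorem ksub_ll (i j : Fin n) : ¬ (Ksub n p).Adj (.inl i) (.inl j) := by
  simp [Ksub, subRel]

theorem ksub_lr (i : Fin n) (e : {e : Fin n × Fin n // e.1 < e.2}) (k : Fin p) :
    (Ksub n p).Adj (.inl i) (.inr (e, k)) ↔
      ((i = e.1.1 ∧ k.val = 0) ∨ (i = e.1.2 ∧ k.val + 1 = p)) := by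
  simp [Ksub, subRel]

theorem ksub_rr (e e' : {e : Fin n × Fin n // e.1 < e.2}) (k k' : Fin p) :
    (Ksub n p).Adj (.inr (e, k)) (.inr (e', k')) ↔
      (e = e' ∧ (k.val + 1 = k'.val ∨ k'.val + 1 = k.val)) := by
  simp only [Ksub, SimpleGraph.fromRel_adj, subRel]
  constructor
  · rintro ⟨-, h | h⟩
    · exact ⟨h.1, Or.inl h.2⟩
    · exact ⟨h.1.symm, Or.inr h.2⟩
  · rintro ⟨rfl, h⟩
    refine ⟨?_, ?_⟩
    · intro heq
      have : k = k' := by
        have := Sum.inr.inj heq
        exact (Prod.ext_iff.1 this).2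
      subst this
      omega
    · rcases h with h | h
      · exact Or.inl ⟨rfl, h⟩
      · exact Or.inr ⟨rfl, h⟩

/-- There is no 4-cycle: case with a branch vertex. -/
theorem no_c4_branch (i : Fin n) (b z z' : KV n p) (hb : b ≠ .inl i) (hz : z ≠ z')
    (h1 : (Ksub n p).Adj (.inl i) z) (h2 : (Ksub n p).Adj (.inl i) z')
    (h3 : (Ksub n p).Adj b z) (h4 : (Ksub n p).Adj b z') : False := by
  rcases z with z | ⟨e, k⟩
  · exact ksub_ll i z h1
  rcases z' with z' | ⟨e', k'⟩
  · exact ksub_ll i z' h2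
  rw [ksub_lr] at h1 h2
  have hlt := e.2
  have hlt' := e'.2
  apply hz
  rcases b with j | ⟨f, l⟩
  · rw [ksub_lr] at h3 h4
    have hij : j ≠ i := fun h => hb (by rw [h])
    have he : e = e' := by
      apply Subtype.ext
      rcases h1 with h1 | h1 <;> rcases h2 with h2 | h2 <;> rcases h3 with h3 | h3 <;>
        rcases h4 with h4 | h4
      all_goals
        first
        | exact absurd (h3.1.trans h1.1.symm) hij
        | exact absurd (h4.1.trans h2.1.symm) hij
        | exact Prod.ext (h1.1.symm.trans h2.1) (h3.1.symm.trans h4.1)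
        | exact Prod.ext (h3.1.symm.trans h4.1) (h1.1.symm.trans h2.1)
        | (exfalso
           rw [← h1.1, ← h3.1] at hlt
           rw [← h2.1, ← h4.1] at hlt'
           exact absurd hlt (lt_asymm hlt'))
    have hp1 : p = 1 := by
      rcases h1 with h1 | h1 <;> rcases h3 with h3 | h3
      · exact absurd (h3.1.trans h1.1.symm) hij
      · omega
      · omega
      · exact absurd (h3.1.trans h1.1.symm) hij
    have hk : k = k' := Fin.ext (by have := k.2; have := k'.2; omega)
    rw [he, hk]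
  · rw [ksub_rr] at h3 h4
    obtain ⟨h3, -⟩ := h3
    obtain ⟨h4, -⟩ := h4
    have he : e = e' := h3.symm.trans h4
    subst he
    have hk : k = k' := by
      apply Fin.ext
      rcases h1 with h1 | h1 <;> rcases h2 with h2 | h2
      · omega
      · exact absurd (h1.1.symm.trans h2.1) hlt.ne
      · exact absurd (h2.1.symm.trans h1.1) hlt.ne
      · omega
    rw [hk]

/-- Two distinct vertices have at most one common neighbour. -/
theorem no_c4 (a b z z' : KV n p) (hb : b ≠ a) (hz : z ≠ z')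
    (h1 : (Ksub n p).Adj a z) (h2 : (Ksub n p).Adj a z')
    (h3 : (Ksub n p).Adj b z) (h4 : (Ksub n p).Adj b z') : False := by
  rcases a with i | ⟨ea, ka⟩
  · exact no_c4_branch i b z z' hb hz h1 h2 h3 h4
  rcases b with i | ⟨eb, kb⟩
  · exact no_c4_branch i _ z z' hb.symm hz h3 h4 h1 h2
  rcases z with i | ⟨ez, kz⟩
  · exact no_c4_branch i z' _ _ hz.symm hb.symm h1.symm h3.symm h2.symm h4.symm
  rcases z' with i | ⟨ez', kz'⟩
  · exact no_c4_branch i _ _ _ hz hb.symm h2.symm h4.symm h1.symm h3.symm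
  rw [ksub_rr] at h1 h2 h3 h4
  obtain ⟨rfl, h1⟩ := h1
  obtain ⟨rfl, h2⟩ := h2
  obtain ⟨rfl, h3⟩ := h3
  obtain ⟨-, h4⟩ := h4
  have h5 : kb.val ≠ ka.val := fun h => hb (by rw [Fin.ext h])
  have h6 : kz.val ≠ kz'.val := fun h => hz (by rw [Fin.ext h])
  omega

/-- The `s`-th vertex of the path from the branch vertex `i` to the branch vertex `j`. -/
def pv (p : ℕ) (i j : Fin n) (hij : i ≠ j) (s : ℕ) : KV n p :=
  if hs : 1 ≤ s ∧ s ≤ p then
    (if h : i < j then .inr (⟨(i, j), h⟩, ⟨s - 1, by omega⟩)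
      else .inr (⟨(j, i), lt_of_le_of_ne (not_lt.1 h) hij.symm⟩, ⟨p - s, by omega⟩))
  else if s = 0 then .inl i else .inl j

theorem pv_zero (i j : Fin n) (hij : i ≠ j) : pv p i j hij 0 = .inl i := by
  simp [pv]

theorem pv_end (i j : Fin n) (hij : i ≠ j) : pv p i j hij (p + 1) = .inl j := by
  simp [pv]

theorem pv_mid (i j : Fin n) (hij : i ≠ j) (s : ℕ) (hs : 1 ≤ s ∧ s ≤ p) :
    pv p i j hij s = (if h : i < j then .inr (⟨(i, j), h⟩, ⟨s - 1, by omega⟩)
      else .inr (⟨(j, i), lt_of_le_of_ne (not_lt.1 h) hij.symm⟩, ⟨p - s, by omega⟩)) := by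
  rw [pv, dif_pos hs]

theorem pv_adj (hp : 1 ≤ p) (i j : Fin n) (hij : i ≠ j) (s : ℕ) (hs : s ≤ p) :
    (Ksub n p).Adj (pv p i j hij s) (pv p i j hij (s + 1)) := by
  by_cases h0 : s = 0
  · subst h0
    rw [pv_zero, pv_mid i j hij _ ⟨le_rfl, hp⟩]
    split_ifs with h
    · rw [ksub_lr]; left; simp
    · rw [ksub_lr]; right; refine ⟨rfl, ?_⟩; simp; omega
  · by_cases h1 : s = p
    · subst h1
      rw [pv_end, pv_mid i j hij _ ⟨by omega, le_rfl⟩]
      split_ifs with h
      · rw [SimpleGraph.adj_comm, ksub_lr]; right; refine ⟨rfl, ?_⟩; simp; omega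
      · rw [SimpleGraph.adj_comm, ksub_lr]; left; simp
    · rw [pv_mid i j hij s ⟨by omega, hs⟩, pv_mid i j hij (s + 1) ⟨by omega, by omega⟩]
      split_ifs with h
      · rw [ksub_rr]; refine ⟨rfl, ?_⟩; left; simp; omega
      · rw [ksub_rr]; refine ⟨rfl, ?_⟩; right; simp; omega

theorem pv_inj (i j j' : Fin n) (hij : i ≠ j) (hij' : i ≠ j') (s s' : ℕ) (hs : 1 ≤ s)
    (hs' : 1 ≤ s') (h : pv p i j hij s = pv p i j' hij' s') : j = j' := by
  unfold pv at h
  have h0 : s ≠ 0 := by omega
  have h0' : s' ≠ 0 := by omega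
  rw [if_neg h0, if_neg h0'] at h
  split_ifs at h with a1 a2 a3 a4 a5 a6 a7 a8
  all_goals
    simp only [Sum.inr.injEq, Sum.inl.injEq, Prod.mk.injEq, Subtype.mk.injEq, reduceCtorEq] at h
  all_goals
    first
    | exact h.1.2
    | exact h.1.1
    | exact h
    | exact absurd h.1.1 hij'
    | exact absurd h.1.1.symm hij
    | exact absurd h.1.2.symm hij
    | exact absurd h.1.2 hij'

end sub

/-! ### Counting -/

section count
variable {n p c : ℕ} {W : Type} {T : Trigraph W} {g : KV n p → W}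

theorem red_of (hrep : Rep (Ksub n p) T g) {a b : KV n p} (hne : g a ≠ g b)
    (hadj : (Ksub n p).Adj a b) (ha : ∃ a', a' ≠ a ∧ g a' = g a) (hb : ∃ b', b' ≠ b ∧ g b' = g b) :
    T.red.Adj (g a) (g b) := by
  rw [(hrep.2 _ _ hne).2]
  obtain ⟨a', ha1, ha2⟩ := ha
  obtain ⟨b', hb1, hb2⟩ := hb
  constructor
  · intro hc
    exact no_c4 a a' b b' ha1 hb1.symm hadj (hc a b' rfl hb2) (hc a' b ha2 rfl) (hc a' b' ha2 hb2)
  · intro hc
    exact hc a b rfl rfl hadj

theorem count (hp : 1 ≤ p) (hrep : Rep (Ksub n p) T g) (hbw : BandwidthLE T.red c) (i : Fin n)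
    (hi : ∃ y, y ≠ .inl i ∧ g y = g (.inl i)) (E : Finset (Fin n)) (hE : i ∈ E)
    (hEc : E.card ≤ 2) (hsing : ∀ j, j ∉ E → ∀ y, g y = g (.inl j) → y = .inl j) :
    n ≤ 4 * c * p + 2 * c + 4 := by
  classical
  obtain ⟨N, σ, hσ⟩ := hbw
  have hij : ∀ j, j ∉ E → i ≠ j := fun j hj h => hj (h ▸ hE)
  -- the walk to the first singleton
  have key : ∀ j, ∃ (A z : KV n p), j ∉ E → (∃ (h : i ≠ j) (s : ℕ), 1 ≤ s ∧ z = pv p i j h s) ∧
      (∀ y, g y = g z → y = z) ∧ (∃ A', A' ≠ A ∧ g A' = g A) ∧ (Ksub n p).Adj A z ∧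
      |((σ (g A)).1 : ℤ) - (σ (g (.inl i))).1| ≤ c * p := by
    intro j
    by_cases hj : j ∈ E
    · exact ⟨.inl i, .inl i, fun h => absurd hj h⟩
    have h := hij j hj
    have hex : ∃ s, 1 ≤ s ∧ ∀ y, g y = g (pv p i j h s) → y = pv p i j h s := by
      refine ⟨p + 1, by omega, ?_⟩
      rw [pv_end]
      exact hsing j hj
    obtain ⟨hs1, hs2⟩ := Nat.find_spec hex
    have hsp : Nat.find hex ≤ p + 1 := by
      apply Nat.find_min' hex
      refine ⟨by omega, ?_⟩
      rw [pv_end]
      exact hsing j hj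
    have hnon : ∀ s, s < Nat.find hex → ∃ y, y ≠ pv p i j h s ∧ g y = g (pv p i j h s) := by
      intro s hs
      by_cases h0 : s = 0
      · subst h0
        rw [pv_zero]
        exact hi
      · have := Nat.find_min hex hs
        push Not at this
        obtain ⟨y, hy1, hy2⟩ := this (by omega)
        exact ⟨y, hy2, hy1⟩
    have hwalk : ∀ s, s < Nat.find hex →
        |((σ (g (pv p i j h s))).1 : ℤ) - (σ (g (.inl i))).1| ≤ c * s := by
      intro s
      induction s with
      | zero => intro _; rw [pv_zero]; simp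
      | succ s ih =>
        intro hs
        have h1 := ih (by omega)
        by_cases heq : g (pv p i j h s) = g (pv p i j h (s + 1))
        · rw [← heq]
          push_cast
          nlinarith
        · have hred := red_of hrep heq (pv_adj hp i j h s (by omega)) (hnon s (by omega))
            (hnon (s + 1) hs)
          have h2 := hσ _ _ hred
          rw [abs_sub_comm] at h2
          have h3 := abs_sub_le ((σ (g (pv p i j h (s + 1)))).1 : ℤ)
            (σ (g (pv p i j h s))).1 (σ (g (.inl i))).1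
          push_cast
          linarith
    refine ⟨pv p i j h (Nat.find hex - 1), pv p i j h (Nat.find hex), fun _ =>
      ⟨⟨h, _, hs1, rfl⟩, hs2, hnon _ (by omega), ?_, ?_⟩⟩
    · have := pv_adj hp i j h (Nat.find hex - 1) (by omega)
      rwa [Nat.sub_add_cancel hs1] at this
    · refine (hwalk _ (by omega)).trans ?_
      have : ((Nat.find hex - 1 : ℕ) : ℤ) ≤ p := by
        have : Nat.find hex - 1 ≤ p := by omega
        exact_mod_cast this
      exact mul_le_mul_of_nonneg_left this (Int.natCast_nonneg c)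
  choose A z hkey using key
  set w0 : ℤ := ((σ (g (.inl i))).1 : ℤ) with hw0
  let Φ : Fin n → ℤ ⊕ ℤ := fun j =>
    if T.red.Adj (g (A j)) (g (z j)) then .inl ((σ (g (z j))).1 : ℤ)
    else .inr ((σ (g (A j))).1 : ℤ)
  have hne : ∀ j, j ∉ E → g (A j) ≠ g (z j) := by
    intro j hj h
    obtain ⟨-, h2, -, h4, -⟩ := hkey j hj
    exact h4.ne (h2 _ h)
  have hcomp : ∀ j, j ∉ E → ¬ T.red.Adj (g (A j)) (g (z j)) →
      Comp (Ksub n p) g (g (A j)) (g (z j)) := by
    intro j hj h
    obtain ⟨-, -, -, h4, -⟩ := hkey j hj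
    rw [(hrep.2 _ _ (hne j hj)).2] at h
    by_contra hc
    exact h ⟨hc, fun ha => ha _ _ rfl rfl h4⟩
  have hcard : (Eᶜ).card ≤ ((Finset.Icc (w0 - c * (p + 1)) (w0 + c * (p + 1))).disjSum
      (Finset.Icc (w0 - c * p) (w0 + c * p))).card := by
    apply Finset.card_le_card_of_injOn Φ
    · intro j hj
      rw [Finset.mem_coe, Finset.mem_compl] at hj
      obtain ⟨-, -, -, h4, h5⟩ := hkey j hj
      simp only [Φ]
      rw [Finset.mem_coe]
      split_ifs with hr
      · rw [Finset.inl_mem_disjSum, Finset.mem_Icc]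
        have h6 := hσ _ _ hr
        rw [abs_sub_comm] at h6
        have h7 := abs_sub_le ((σ (g (z j))).1 : ℤ) (σ (g (A j))).1 w0
        have h8 : |((σ (g (z j))).1 : ℤ) - w0| ≤ c * (p + 1) := by
          rw [mul_add, mul_one]
          linarith
        rw [abs_le] at h8
        constructor <;> linarith [h8.1, h8.2]
      · rw [Finset.inr_mem_disjSum, Finset.mem_Icc]
        rw [abs_le] at h5
        constructor <;> linarith [h5.1, h5.2]
    · intro j hj j' hj' heq
      rw [Finset.mem_coe, Finset.mem_compl] at hj hj'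
      obtain ⟨⟨e1, s1, hs1, hz1⟩, h2, h3, h4, -⟩ := hkey j hj
      obtain ⟨⟨e1', s1', hs1', hz1'⟩, h2', h3', h4', -⟩ := hkey j' hj'
      have hzz : z j = z j' → j = j' := by
        intro h
        rw [hz1, hz1'] at h
        exact pv_inj i j j' e1 e1' s1 s1' hs1 hs1' h
      apply hzz
      simp only [Φ] at heq
      split_ifs at heq with r1 r2 r2
      · have h5 := Sum.inl.inj heq
        have h6 : g (z j) = g (z j') := by
          apply σ.injective
          apply Fin.ext
          exact_mod_cast h5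
        exact h2' _ h6
      · have h5 := Sum.inr.inj heq
        have h6 : g (A j) = g (A j') := by
          apply σ.injective
          apply Fin.ext
          exact_mod_cast h5
        have c1 := hcomp j hj r1
        have c2 := hcomp j' hj' r2
        by_contra hcon
        obtain ⟨A', hA1, hA2⟩ := h3
        exact no_c4 (A j) A' (z j) (z j') hA1 hcon h4 (c2 _ _ h6 rfl) (c1 _ _ hA2 rfl)
          (c2 _ _ (hA2.trans h6) rfl)
  rw [Finset.card_disjSum, Int.card_Icc, Int.card_Icc, Finset.card_compl, Fintype.card_fin] at hcard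
  have e1 : (w0 + c * (p + 1) + 1 - (w0 - c * (p + 1))).toNat = 2 * c * (p + 1) + 1 := by
    have : w0 + c * (p + 1) + 1 - (w0 - c * (p + 1)) = ((2 * c * (p + 1) + 1 : ℕ) : ℤ) := by
      push_cast; ring
    rw [this, Int.toNat_natCast]
  have e2 : (w0 + c * p + 1 - (w0 - c * p)).toNat = 2 * c * p + 1 := by
    have : w0 + c * p + 1 - (w0 - c * p) = ((2 * c * p + 1 : ℕ) : ℤ) := by
      push_cast; ring
    rw [this, Int.toNat_natCast]
  rw [e1, e2] at hcard
  have e3 : 2 * c * (p + 1) + 1 + (2 * c * p + 1) = 4 * c * p + 2 * c + 2 := by ring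
  omega

end count

theorem main {n p c : ℕ} (hn : 2 ≤ n) (hp : 1 ≤ p) {V : Type} {T : Trigraph V}
    (h : Contracts c V T) : ∀ (g : KV n p → V), Rep (Ksub n p) T g →
    (∀ i y, g y = g (.inl i) → y = .inl i) → n ≤ 4 * c * p + 2 * c + 4 := by
  classical
  induction h with
  | single V T hcard hbw =>
    intro g hg hs
    exfalso
    have hsub : Subsingleton V := (Nat.card_eq_one_iff_unique.1 hcard).1
    have := hs ⟨0, by omega⟩ (.inl ⟨1, by omega⟩) (Subsingleton.elim _ _)
    have h2 := Sum.inl.inj this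
    exact absurd (congrArg Fin.val h2) (by simp)
  | step V W T T' hbw hcon hT' ih =>
    intro g hg hs
    obtain ⟨f, u, v, huv, hf, h1, h2, h3⟩ := hcon
    have hrep' := rep_step hg huv hf h1 h2 h3
    by_cases hall : ∀ i y, (f ∘ g) y = (f ∘ g) (.inl i) → y = .inl i
    · exact ih (f ∘ g) hrep' hall
    · push Not at hall
      obtain ⟨i, y, hy1, hy2⟩ := hall
      have hbw' : BandwidthLE T'.red c := by
        cases hT' with
        | single _ _ _ h => exact h
        | step _ _ _ _ h _ _ => exact h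
      refine count hp hrep' hbw' i ⟨y, hy2, hy1⟩
        (Finset.univ.filter (fun j => g (.inl j) = u ∨ g (.inl j) = v)) ?_ ?_ ?_
      · rw [Finset.mem_filter]
        refine ⟨Finset.mem_univ _, ?_⟩
        rcases (h1 _ _).1 hy1 with h | ⟨-, h⟩ | ⟨-, h⟩
        · exact absurd (hs i y h) hy2
        · exact Or.inr h
        · exact Or.inl h
      · have hinj : ∀ j j' : Fin n, g (.inl j) = g (.inl j') → j = j' :=
          fun j j' h => Sum.inl.inj (hs j' _ h)
        calc (Finset.univ.filter (fun j => g (.inl j) = u ∨ g (.inl j) = v)).card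
            ≤ ({u, v} : Finset V).card := by
              apply Finset.card_le_card_of_injOn (fun j => g (.inl j))
              · intro j hj
                have := (Finset.mem_filter.1 hj).2
                simp only [Finset.coe_insert, Finset.coe_singleton, Set.mem_insert_iff,
                  Set.mem_singleton_iff]
                exact this
              · intro j _ j' _ h
                exact hinj j j' h
          _ ≤ 2 := Finset.card_le_two
      · intro j hj y hy
        rw [Finset.mem_filter, not_and, not_or] at hj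
        obtain ⟨hju, hjv⟩ := hj (Finset.mem_univ _)
        apply hs j y
        rcases (h1 _ _).1 hy with h | ⟨-, h⟩ | ⟨-, h⟩
        · exact h
        · exact absurd h hjv
        · exact absurd h hju

/-- If the reduced bandwidth of `K_n^{(p)}` is at most `c`, then `p ≥ n / (6 c + 4)`. -/
theorem result : ∀ c : ℕ, ∃ δ : ℝ, 0 < δ ∧ ∀ n p : ℕ, 2 ≤ n → 1 ≤ p →
    ReducedBandwidthLE (Ksub n p) c → δ * n ≤ p := by
  intro c
  refine ⟨1 / (6 * c + 4), by positivity, ?_⟩
  intro n p hn hp h
  have h1 := main hn hp h id (rep_ofGraph _) (fun i y hy => hy)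
  have h2 : n ≤ (6 * c + 4) * p := by nlinarith
  have h3 : (n : ℝ) ≤ (6 * c + 4) * p := by exact_mod_cast h2
  rw [one_div, inv_mul_le_iff₀ (by positivity)]
  exact h3

end Pool.Agent.Results.MP_ec82ff_co.LinearSubdivision
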